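import Pool.Agent.Helper61.BT.Goals

/-!
# Project BT, packet FRB: the action on the minimal cuts
-/

set_option autoImplicit false

namespace Pool.Agent.Helper53.BT

open Pool.Agent.Helper27.VF Pool.Agent.Helper61.BT

universe u

theorem sep_nonempty {A W : Type u} [Group A] [MulAction A W] {G G₀ : SimpleGraph W} {w : W}
    {p : Ultrafilter W} (h : Stg A G G₀ w p) {k : ℕ} {d : Set W × Set W} (hd : d ∈ SS A G p k) :
    (sep d).Nonempty := by
  by_contra hne
  rw [Set.not_nonempty_iff_eq_empty] at hne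
  obtain ⟨hc, _, a, b, ha, hb⟩ := hd
  obtain ⟨x, hx⟩ := inn_nonempty h ha
  obtain ⟨y, hy⟩ := inn_nonempty h hb
  have hstep : ∀ u v, u ∈ d.1 → G₀.Adj u v → v ∈ d.1 := by
    intro u v hu huv
    by_contra hv
    have h2 : v ∉ d.2 := fun h2 => hc.no u hu v h2 (h.le huv)
    have h3 : v ∈ sep d := mem_sep.2 ⟨hv, h2⟩
    rw [hne] at h3
    exact h3
  have hwalk : ∀ {u v : W}, G₀.Walk u v → u ∈ d.1 → v ∈ d.1 := by
    intro u v q
    induction q with
    | nil => exact id
    | cons hadj _ ih => exact fun hu => ih (hstep _ _ hu hadj)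
  obtain ⟨q⟩ := h.conn.preconnected x y
  exact hc.disj y (hwalk q hx) hy

theorem stab_finite {A W : Type u} [Group A] [MulAction A W] {G G₀ : SimpleGraph W} {w : W}
    {p : Ultrafilter W} (h : Stg A G G₀ w p) {k : ℕ} {d : Set W × Set W}
    (hd : d ∈ SS A G p k) : {g : A | tr g d = d}.Finite := by
  obtain ⟨v, hv⟩ := sep_nonempty h hd
  refine Set.Finite.of_finite_image (f := fun g : A => g • v) (hd.1.fin.subset ?_) ?_
  · rintro _ ⟨g, hg, rfl⟩
    have hg' : tr g d = d := hg
    have h1 : g • v ∈ sep (tr g d) := by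
      rw [sep_tr]
      exact ⟨v, hv, rfl⟩
    rwa [hg'] at h1
  · intro g _ g' _ he
    have he' : g • v = g' • v := he
    have h1 : (g'⁻¹ * g) • v = v := by
      rw [mul_smul, he', inv_smul_smul]
    have h2 := h.free _ v h1
    exact (inv_mul_eq_one.1 h2).symm

theorem frb (hLoc : LocStmt.{u}) (hOrc : OrcStmt.{u}) : FrbStmt.{u} := by
  classical
  intro A W _ _ G G₀ w p h k hk
  refine ⟨?_, ?_⟩
  · obtain ⟨_, 𝓕, hfin, hcov⟩ := hLoc A W G G₀ w p h k hk
    let D : Set W × Set W → Set W × Set W := fun f =>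
      if hf : ∃ g : A, tr g f ∈ DD A G p k then tr (Classical.choose hf) f else f
    refine ⟨D '' 𝓕 ∩ DD A G p k, (hfin.image D).inter_of_left _, Set.inter_subset_right, ?_⟩
    intro d hd
    obtain ⟨f, hf, g, hg⟩ := hcov d hd.1
    have hex : ∃ g : A, tr g f ∈ DD A G p k := ⟨g, hg ▸ hd⟩
    have hDf : D f = tr (Classical.choose hex) f := dif_pos hex
    have hDm : D f ∈ DD A G p k := by
      rw [hDf]
      exact Classical.choose_spec hex
    have he : d = tr (g * (Classical.choose hex)⁻¹) (D f) := by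
      rw [hDf, tr_tr, inv_mul_cancel_right]
      exact hg
    refine ⟨D f, ⟨⟨f, hf, rfl⟩, hDm⟩, g * (Classical.choose hex)⁻¹, ?_, he⟩
    exact hOrc A W G G₀ w p h k hk _ (D f) hDm (he ▸ hd)
  · intro d hd
    exact stab_finite h hd

end Pool.Agent.Helper53.BT
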