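import Pool.Agent.Helper84.BT.Goals

/-!
# Packet BT-SER (MP_57df85_nt)
-/

set_option autoImplicit false

open Finset

namespace Pool.Agent.Helper53.BT.SER

open Pool.Agent.Helper84.BT

theorem cb_step (n : ℕ) : Nat.centralBinom (n + 1) ≤ 4 * Nat.centralBinom n := by
  have h := Nat.succ_mul_centralBinom_succ n
  have h1 : (n + 1) * Nat.centralBinom (n + 1) ≤ (n + 1) * (4 * Nat.centralBinom n) := by
    rw [h]
    nlinarith [Nat.centralBinom n |>.zero_le]
  exact Nat.le_of_mul_le_mul_left h1 (Nat.succ_pos n)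

theorem cb_le (n : ℕ) : Nat.centralBinom n ≤ 4 ^ n := by
  induction n with
  | zero => simp
  | succ n ih =>
    refine (cb_step n).trans ?_
    rw [pow_succ]
    omega

theorem coeff_Bs (a : ℤ) (n : ℕ) :
    PowerSeries.coeff n (Bs a) = (Nat.centralBinom n : ℤ) * (-a) ^ n := by
  rw [Bs, PowerSeries.coeff_mk]

theorem bound_Bs (b : ℤ) (M : ℕ) (hb : |b| ≤ M) (n : ℕ) :
    |PowerSeries.coeff n (Bs b)| ≤ (4 * (M : ℤ)) ^ n := by
  rw [coeff_Bs, abs_mul, abs_pow, abs_neg, mul_pow, Nat.abs_cast]
  refine mul_le_mul ?_ (pow_le_pow_left₀ (abs_nonneg _) hb n) (pow_nonneg (abs_nonneg _) n)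
    (by positivity)
  exact_mod_cast cb_le n

theorem coeff_zero_laBs (a : ℤ) : PowerSeries.coeff 0 (la a * Bs a) = 1 := by
  have h1 : PowerSeries.constantCoeff (la a) = 1 := by simp [la]
  have h2 : PowerSeries.constantCoeff (Bs a) = 1 := by
    rw [← PowerSeries.coeff_zero_eq_constantCoeff_apply, coeff_Bs]
    simp
  rw [PowerSeries.coeff_zero_eq_constantCoeff_apply, map_mul, h1, h2, one_mul]

theorem coeff_succ_laBs (a : ℤ) (n : ℕ) : PowerSeries.coeff (n + 1) (la a * Bs a) =
    (-a) ^ (n + 1) * ((Nat.centralBinom (n + 1) : ℤ) - 4 * Nat.centralBinom n) := by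
  have h : la a * Bs a = Bs a + PowerSeries.C (4 * a) * (Bs a * PowerSeries.X) := by
    rw [la]
    ring
  rw [h, map_add, PowerSeries.coeff_C_mul, PowerSeries.coeff_succ_mul_X, coeff_Bs, coeff_Bs]
  ring

theorem bound_laBs (a : ℤ) (M : ℕ) (ha : |a| ≤ M) (n : ℕ) :
    |PowerSeries.coeff n (la a * Bs a)| ≤ (4 * (M : ℤ)) ^ n := by
  cases n with
  | zero => rw [coeff_zero_laBs]; simp
  | succ n =>
    rw [coeff_succ_laBs, abs_mul, abs_pow, abs_neg, mul_pow, mul_comm]
    refine mul_le_mul ?_ (pow_le_pow_left₀ (abs_nonneg _) ha _) (pow_nonneg (abs_nonneg _) _)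
      (by positivity)
    have h1 : (Nat.centralBinom (n + 1) : ℤ) ≤ 4 * Nat.centralBinom n := by
      exact_mod_cast cb_step n
    have h2 : (Nat.centralBinom n : ℤ) ≤ 4 ^ n := by exact_mod_cast cb_le n
    have h3 : (0 : ℤ) ≤ Nat.centralBinom (n + 1) := by positivity
    rw [abs_le]
    constructor
    · have : (4 : ℤ) ^ (n + 1) = 4 * 4 ^ n := by ring
      rw [this]
      linarith
    · have : (0 : ℤ) ≤ 4 ^ (n + 1) := by positivity
      linarith

theorem t : S_SER := by
  intro hCB a b
  have hS2 : Sr a b ^ 2 * la b = la a := by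
    have e : Sr a b ^ 2 * la b = la a * (Bs a ^ 2 * la a) * (Bs b ^ 2 * la b) := by
      rw [Sr]
      ring
    rw [e, hCB a, hCB b, mul_one, mul_one]
  refine ⟨?_, hS2, ?_, ?_⟩
  · have h1 : PowerSeries.coeff 0 (la a * Bs a) = 1 := coeff_zero_laBs a
    have h2 : PowerSeries.constantCoeff (Bs b) = 1 := by
      rw [← PowerSeries.coeff_zero_eq_constantCoeff_apply, coeff_Bs]
      simp
    rw [PowerSeries.coeff_zero_eq_constantCoeff_apply] at h1
    rw [Sr, map_mul, h1, h2, one_mul]
  · have hd : ∀ c : ℤ, PowerSeries.derivative ℤ (la c) = PowerSeries.C (4 * c) := by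
      intro c
      ext n
      rw [PowerSeries.coeff_derivative, la, map_add, PowerSeries.coeff_C_mul,
        PowerSeries.coeff_one, PowerSeries.coeff_X, PowerSeries.coeff_C]
      rcases Nat.eq_zero_or_pos n with rfl | hn
      · simp
      · have h1 : n ≠ 0 := hn.ne'
        simp [h1]
    have h3 := congrArg (PowerSeries.derivative ℤ) hS2
    rw [Derivation.leibniz, Derivation.leibniz_pow, hd, hd] at h3
    simp only [smul_eq_mul, nsmul_eq_mul, Nat.cast_ofNat, pow_one, Nat.add_one_sub_one] at h3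
    set S := Sr a b
    set S' := PowerSeries.derivative ℤ S
    have hla : ∀ c : ℤ, la c = 1 + PowerSeries.C (4 * c) * PowerSeries.X := fun _ => rfl
    have h4 : PowerSeries.C (4 * a) * la b - PowerSeries.C (4 * b) * la a =
        PowerSeries.C (4 * (a - b)) := by
      rw [hla, hla]
      have e : (PowerSeries.C (4 * (a - b)) : PowerSeries ℤ) =
          PowerSeries.C (4 * a) - PowerSeries.C (4 * b) := by
        rw [← map_sub]
        ring_nf
      rw [e]
      ring
    have h5 : (2 : PowerSeries ℤ) * (la a * la b * S') =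
        2 * (PowerSeries.C (2 * (a - b)) * S) := by
      have e1 : (2 : PowerSeries ℤ) * (PowerSeries.C (2 * (a - b)) * S) =
          PowerSeries.C (4 * (a - b)) * S := by
        have : (PowerSeries.C (4 * (a - b)) : PowerSeries ℤ) =
            2 * PowerSeries.C (2 * (a - b)) := by
          have h2 : (2 : PowerSeries ℤ) = PowerSeries.C 2 := by simp
          rw [h2, ← map_mul]
          ring_nf
        rw [this]
        ring
      rw [e1, ← h4]
      linear_combination (la b * S) * h3 - (2 * la b * S' + PowerSeries.C (4 * b) * S) * hS2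
    have h20 : (2 : PowerSeries ℤ) ≠ 0 := by
      intro h
      have h1 := congrArg PowerSeries.constantCoeff h
      rw [map_ofNat, map_zero] at h1
      norm_num at h1
    exact mul_left_cancel₀ h20 h5
  · intro M ha hb n
    rw [Sr, PowerSeries.coeff_mul]
    refine (Finset.abs_sum_le_sum_abs _ _).trans ?_
    have h1 : ∀ x ∈ antidiagonal n, |PowerSeries.coeff x.1 (la a * Bs a) *
        PowerSeries.coeff x.2 (Bs b)| ≤ (4 * (M : ℤ)) ^ n := by
      intro x hx
      rw [abs_mul]
      have e : (4 * (M : ℤ)) ^ n = (4 * (M : ℤ)) ^ x.1 * (4 * (M : ℤ)) ^ x.2 := by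
        rw [← pow_add, mem_antidiagonal.1 hx]
      rw [e]
      exact mul_le_mul (bound_laBs a M ha _) (bound_Bs b M hb _) (abs_nonneg _) (by positivity)
    refine (Finset.sum_le_card_nsmul _ _ _ h1).trans ?_
    rw [Finset.Nat.card_antidiagonal, nsmul_eq_mul]
    push_cast
    exact le_rfl

end Pool.Agent.Helper53.BT.SER
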