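import Pool.Agent.Helper61.BT.Goals

/-!
# Project BT: groups which are not finitely generated

If infinitely many elements of the generating set `S` lie in one finitely generated subgroup `H`,
then a finite subset of `S` generates a subgroup `K ≥ H`, and `ApbStmt` for `K` and `S ∩ K` gives
the minor.
-/

set_option autoImplicit false

namespace Pool.Agent.Helper53.BT

open Pool.Agent.Helper61.BT

universe u

/-- every element of `closure S` is in the closure of a finite subset of `S` -/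
theorem fin_word {Γ : Type u} [Group Γ] {S : Set Γ} {x : Γ} (hx : x ∈ Subgroup.closure S) :
    ∃ t : Set Γ, t.Finite ∧ t ⊆ S ∧ x ∈ Subgroup.closure t := by
  induction hx using Subgroup.closure_induction with
  | mem x hx => exact ⟨{x}, Set.finite_singleton x, by simpa using hx,
      Subgroup.subset_closure (Set.mem_singleton x)⟩
  | one => exact ⟨∅, Set.finite_empty, Set.empty_subset _, one_mem _⟩
  | mul x y _ _ hx hy =>
    obtain ⟨t, ht, hts, hxt⟩ := hx
    obtain ⟨t', ht', hts', hyt⟩ := hy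
    exact ⟨t ∪ t', ht.union ht', Set.union_subset hts hts',
      mul_mem (Subgroup.closure_mono Set.subset_union_left hxt)
        (Subgroup.closure_mono Set.subset_union_right hyt)⟩
  | inv x _ hx =>
    obtain ⟨t, ht, hts, hxt⟩ := hx
    exact ⟨t, ht, hts, inv_mem hxt⟩

/-- a finitely generated subgroup of `closure S` is in the closure of a finite subset of `S` -/
theorem fin_words {Γ : Type u} [Group Γ] {S : Set Γ} (hS : Subgroup.closure S = ⊤)
    (H : Subgroup Γ) (hH : H.FG) : ∃ t : Set Γ, t.Finite ∧ t ⊆ S ∧ H ≤ Subgroup.closure t := by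
  classical
  obtain ⟨F, hF⟩ := hH
  have h1 : ∀ x : Γ, ∃ t : Set Γ, t.Finite ∧ t ⊆ S ∧ x ∈ Subgroup.closure t := fun x =>
    fin_word (by rw [hS]; trivial)
  choose t ht hts hxt using h1
  refine ⟨⋃ x ∈ F, t x, ?_, ?_, ?_⟩
  · exact F.finite_toSet.biUnion fun x _ => ht x
  · exact Set.iUnion₂_subset fun x _ => hts x
  · rw [← hF, Subgroup.closure_le]
    intro x hx
    exact Subgroup.closure_mono (Set.subset_iUnion₂ (s := fun x (_ : x ∈ F) => t x) x hx) (hxt x)

/-- **Theorem.** -/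
theorem wrp (hA : ApbStmt.{u}) (Γ : Type u) [Group Γ] (S : Set Γ)
    (hgen : Subgroup.closure S = ⊤) (hinv : ∀ s ∈ S, s⁻¹ ∈ S) (h1 : (1 : Γ) ∉ S)
    (hb : ∀ K : Subgroup Γ, K.FG → ∃ N : ℕ, ∀ F : Subgroup Γ, F ≤ K → (F : Set Γ).Finite →
      Nat.card F ≤ N)
    (H : Subgroup Γ) (hH : H.FG) (hinf : (S ∩ H).Infinite) :
    ∃ φ : ℕ → Set Γ,
      (∀ i, ((SimpleGraph.fromRel fun a b : Γ => a⁻¹ * b ∈ S).induce (φ i)).Connected) ∧
      (∀ i j, i ≠ j → Disjoint (φ i) (φ j)) ∧
      ∀ i j, i ≠ j → ∃ a ∈ φ i, ∃ b ∈ φ j,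
        (SimpleGraph.fromRel fun a b : Γ => a⁻¹ * b ∈ S).Adj a b := by
  obtain ⟨t, ht, hts, hHt⟩ := fin_words hgen H hH
  have hKfg : (Subgroup.closure t).FG := ⟨ht.toFinset, by rw [Set.Finite.coe_toFinset]⟩
  have hfg : Group.FG (Subgroup.closure t) := (Group.fg_iff_subgroup_fg _).2 hKfg
  obtain ⟨N, hN⟩ := hb _ hKfg
  obtain ⟨φ, hφ1, hφ2, hφ3⟩ := hA (Subgroup.closure t) hfg ⟨N, by
      intro F hF
      have h2 : ((F.map (Subgroup.closure t).subtype : Subgroup Γ) : Set Γ).Finite := by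
        rw [Subgroup.coe_map]
        exact hF.image _
      have h3 := hN (F.map (Subgroup.closure t).subtype) (by
        rintro _ ⟨x, _, rfl⟩
        exact x.2) h2
      have h4 : Nat.card (F.map (Subgroup.closure t).subtype) = Nat.card F :=
        Nat.card_congr (F.equivMapOfInjective _ (Subgroup.subtype_injective _)).toEquiv.symm
      rwa [h4] at h3⟩
    {x | (x : Γ) ∈ S} (by
      rw [eq_top_iff, ← Subgroup.closure_closure_coe_preimage (k := t)]
      exact Subgroup.closure_mono fun x hx => hts hx)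
    (by
      intro s hs
      exact hinv _ hs)
    (by
      intro hs
      exact h1 hs)
    (by
      intro hfin
      apply hinf
      refine (Set.Finite.image (fun x : Subgroup.closure t => (x : Γ)) hfin).subset ?_
      rintro x ⟨hx1, hx2⟩
      exact ⟨⟨x, hHt hx2⟩, hx1, rfl⟩)
  have hadj : ∀ a b : Subgroup.closure t,
      (SimpleGraph.fromRel fun a b : Subgroup.closure t =>
        a⁻¹ * b ∈ ({x | (x : Γ) ∈ S} : Set (Subgroup.closure t))).Adj a b →
      (SimpleGraph.fromRel fun a b : Γ => a⁻¹ * b ∈ S).Adj (a : Γ) (b : Γ) := by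
    intro a b hab
    rw [SimpleGraph.fromRel_adj] at hab ⊢
    refine ⟨fun he => hab.1 (Subtype.ext he), ?_⟩
    exact hab.2
  refine ⟨fun i => (fun x : Subgroup.closure t => (x : Γ)) '' φ i, ?_, ?_, ?_⟩
  · intro i
    refine (hφ1 i).map (H := (SimpleGraph.fromRel fun a b : Γ => a⁻¹ * b ∈ S).induce
      ((fun x : Subgroup.closure t => (x : Γ)) '' φ i))
      ⟨fun x => ⟨((x.1 : Subgroup.closure t) : Γ), ⟨x.1, x.2, rfl⟩⟩, ?_⟩ ?_
    · intro a b hab
      exact hadj _ _ hab
    · rintro ⟨_, ⟨x, hx, rfl⟩⟩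
      exact ⟨⟨x, hx⟩, rfl⟩
  · intro i j hij
    rw [Set.disjoint_left]
    rintro _ ⟨x, hx, rfl⟩ ⟨y, hy, he⟩
    have he' : y = x := Subtype.ext he
    subst he'
    exact Set.disjoint_left.1 (hφ2 i j hij) hx hy
  · intro i j hij
    obtain ⟨a, ha, b, hb', hab⟩ := hφ3 i j hij
    exact ⟨(a : Γ), ⟨a, ha, rfl⟩, (b : Γ), ⟨b, hb', rfl⟩, hadj a b hab⟩

end Pool.Agent.Helper53.BT
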